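import Pool.Agent.W206.YP.Stm

/-! YP-PA: first part of P4. -/

set_option autoImplicit false

namespace Pool.Agent.W513.YP.PA

open MvPolynomial UpperHalfPlane H294ZP Pool.Agent.W206.YP Filter Topology

/-- a polynomial in two holomorphic functions is holomorphic -/
theorem diff_eval (U : Set ℂ) (u v : ℂ → ℂ) (hu : DifferentiableOn ℂ u U) (hv : DifferentiableOn ℂ v U)
    (R : MvPolynomial (Fin 2) ℂ) : DifferentiableOn ℂ (fun z => MvPolynomial.eval ![u z, v z] R) U := by
  induction R using MvPolynomial.induction_on with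
  | C a =>
    simp only [MvPolynomial.eval_C]
    exact differentiableOn_const a
  | add p q hp hq =>
    simp only [map_add]
    exact hp.add hq
  | mul_X p i hp =>
    simp only [map_mul, MvPolynomial.eval_X]
    refine hp.mul ?_
    fin_cases i
    · exact hu
    · exact hv

theorem upper_open : IsOpen {z : ℂ | 0 < z.im} := isOpen_lt continuous_const Complex.continuous_im

theorem upper_preconn : IsPreconnected {z : ℂ | 0 < z.im} :=
  (convex_halfSpace_im_gt 0).isPreconnected

/-- finitely many holomorphic functions whose zero sets cover the upper half plane -/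
theorem cover {ι : Type} [Fintype ι] (F : ι → ℂ → ℂ)
    (hF : ∀ k, DifferentiableOn ℂ (F k) {z : ℂ | 0 < z.im})
    (hz : ∀ z : ℂ, 0 < z.im → ∃ k, F k z = 0) : ∃ k, ∀ z : ℂ, 0 < z.im → F k z = 0 := by
  have hI : (0 : ℝ) < (Complex.I).im := by simp
  have hev : ∀ᶠ z in 𝓝[≠] Complex.I, ∃ k, F k z = 0 := by
    apply eventually_nhdsWithin_of_eventually_nhds
    filter_upwards [upper_open.mem_nhds hI] with z hz'
    exact hz z hz'
  have hfr : ∃ k, ∃ᶠ z in 𝓝[≠] Complex.I, F k z = 0 := by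
    by_contra hno
    push Not at hno
    have h1 : ∀ᶠ z in 𝓝[≠] Complex.I, ∀ k, F k z ≠ 0 := by
      rw [eventually_all]
      intro k
      exact hno k
    obtain ⟨z, hz1, k, hk⟩ := (h1.and hev).exists
    exact hz1 k hk
  obtain ⟨k, hk⟩ := hfr
  refine ⟨k, fun z hz' => ?_⟩
  have han : AnalyticOnNhd ℂ (F k) {z : ℂ | 0 < z.im} := (hF k).analyticOnNhd upper_open
  exact han.eqOn_zero_of_preconnected_of_frequently_eq_zero upper_preconn hI hk hz'

theorem main : S_RES → S_TRN → S_SURJ → S_PA := by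
  intro hRES hTRN _ N f g hN hf hiso
  obtain ⟨ι, _, _, a, d, b, h, had, hh, -, hrep⟩ := TF676.tf ta1.1 N hN
  obtain ⟨R, hR⟩ := hRES f g hf
  have hpt : ∀ τ : ℍ, ∃ k, MvPolynomial.eval ![jj (h k τ), jj τ] R = 0 := by
    intro τ
    obtain ⟨s, hs⟩ : ∃ s : ℂ, f.eval s = jj τ := by
      obtain ⟨s, hs⟩ := IsAlgClosed.exists_root (f - Polynomial.C (jj τ)) (by
        have h1 : (f - Polynomial.C (jj τ)).natDegree = f.natDegree := Polynomial.natDegree_sub_C
        have h2 : 0 < (f - Polynomial.C (jj τ)).natDegree := by rw [h1]; exact hf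
        exact (Polynomial.natDegree_pos_iff_degree_pos.mp h2).ne')
      refine ⟨s, ?_⟩
      have h1 : (f - Polynomial.C (jj τ)).eval s = 0 := hs
      rw [Polynomial.eval_sub, Polynomial.eval_C] at h1
      exact sub_eq_zero.mp h1
    obtain ⟨τ', w', p, q, r, t, hdet, hw', hx, hy⟩ := hiso s
    have hjj : jj τ = jj τ' := by rw [← hs, hy]
    obtain ⟨w, p', q', r', t', hdet', hw, hjw⟩ := hTRN.1 τ τ' w' p q r t hjj
      (by rw [hdet]; exact_mod_cast hN) hw'
    obtain ⟨k, hk⟩ := hrep p' q' r' t' (by rw [hdet', hdet]) τ w hw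
    refine ⟨k, (hR _ _).mpr ⟨s, hs, ?_⟩⟩
    rw [hx, ← hjw, hk]
  have hhol : ∀ k, Hol (fun τ => jj (h k τ)) := fun k =>
    (tc.2.2.2.2 ta1.2 ta2 (a k) (d k) (b k) (had k).1 (had k).2.1 (h k) (hh k)).2
  obtain ⟨k, hk⟩ := cover
    (fun k z => MvPolynomial.eval ![jj (h k (ofComplex z)), jj (ofComplex z)] R)
    (fun k => diff_eval _ _ _ (hhol k) ta1.2 R) (fun z _ => hpt (ofComplex z))
  refine ⟨a k, b k, 0, d k, ?_, ?_⟩
  · rw [mul_zero, sub_zero]
    exact_mod_cast (had k).2.2
  · intro τ w hw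
    have hd : (d k : ℂ) ≠ 0 := by
      have := (had k).2.1
      exact_mod_cast this.ne'
    have hwe : w = h k τ := by
      apply UpperHalfPlane.ext
      have h1 := hh k τ
      simp only [Int.cast_zero, zero_mul, zero_add, Int.cast_natCast] at hw
      have h2 : (w : ℂ) * (d k : ℂ) = (h k τ : ℂ) * (d k : ℂ) := by rw [hw, h1]
      exact mul_right_cancel₀ hd h2
    have h1 := hk (τ : ℂ) τ.im_pos
    simp only [ofComplex_apply] at h1
    rw [hwe]
    exact (hR _ _).mp h1

end Pool.Agent.W513.YP.PA
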